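import Pool.Agent.C4U.Stmts

/-!
# Squad C4U, row DFS: backtracking
-/

set_option autoImplicit false

namespace Pool.Agent.C4U.H2

open Pool.Agent.C4U

/-- the lexicographic order -/
def Lx (c c' : ℕ → ℕ) : Prop := ∃ m, (∀ e < m, c e = c' e) ∧ c m < c' m

theorem Lx.irrefl {c : ℕ → ℕ} (h : Lx c c) : False := by
  obtain ⟨m, -, h⟩ := h
  exact lt_irrefl _ h

theorem Lx.trans {a b c : ℕ → ℕ} (h : Lx a b) (h' : Lx b c) : Lx a c := by
  obtain ⟨m, h1, h2⟩ := h
  obtain ⟨n, h3, h4⟩ := h'
  rcases lt_trichotomy m n with h5 | h5 | h5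
  · exact ⟨m, fun e he => (h1 e he).trans (h3 e (he.trans h5)), (h3 m h5) ▸ h2⟩
  · subst h5
    exact ⟨m, fun e he => (h1 e he).trans (h3 e he), h2.trans h4⟩
  · exact ⟨n, fun e he => (h1 e (he.trans h5)).trans (h3 e he), (h1 n h5).symm ▸ h4⟩

theorem pre_pre {m n : ℕ} (h : m ≤ n) (c : ℕ → ℕ) : pre m (pre n c) = pre m c := by
  funext e
  unfold pre
  by_cases h1 : e < m
  · rw [if_pos h1, if_pos (lt_of_lt_of_le h1 h), if_pos h1]
  · rw [if_neg h1, if_neg h1]

theorem pre_apply {m e : ℕ} (h : e < m) (c : ℕ → ℕ) : pre m c e = c e := if_pos h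

theorem finite_st (D B : ℕ) : {c : ℕ → ℕ | IsSt D B c}.Finite := by
  refine (Set.finite_range (fun (φ : Fin D → Fin (B + 1)) (e : ℕ) =>
    if h : e < D then ((φ ⟨e, h⟩ : Fin (B + 1)) : ℕ) else 0)).subset ?_
  rintro c ⟨l, hl, h1, h2⟩
  have hB : ∀ e, c e ≤ B := by
    intro e
    rcases lt_or_ge e l with h | h
    · exact (h1 e h).2
    · rw [h2 e h]
      exact Nat.zero_le _
  refine ⟨fun e => ⟨c e, Nat.lt_succ_of_le (hB e)⟩, ?_⟩
  funext e
  by_cases h : e < D
  · simp only [dif_pos h]
  · simp only [dif_neg h]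
    exact (h2 e (by omega)).symm

section step

variable {Good : (ℕ → ℕ) → Prop} {D B : ℕ} {c : ℕ → ℕ}

/-- the predecessor of a state is good -/
def Pg (Good : (ℕ → ℕ) → Prop) (D : ℕ) (c : ℕ → ℕ) : Prop :=
  1 ≤ ln D c → Good (pre (ln D c - 1) c)

/-- `c` is a prefix of `g` or smaller than `g` at a register in use -/
def Sm (D : ℕ) (g c : ℕ → ℕ) : Prop :=
  c = pre (ln D c) g ∨ ∃ m < ln D c, (∀ e < m, c e = g e) ∧ c m < g m

theorem step (h1 : StlStmt) (hB : 1 ≤ B) (hcl : ∀ c n, IsSt D B c → Good c → Good (pre n c))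
    (hc : IsSt D B c) (hg : Pg Good D c) (hC : Cont D B (Good c) c) :
    IsSt D B (nx D B (Good c) c) ∧ 1 ≤ ln D (nx D B (Good c) c) ∧
      Good (pre (ln D (nx D B (Good c) c) - 1) (nx D B (Good c) c)) ∧
      Lx c (nx D B (Good c) c) ∧
      ∀ g, IsSt D B g → ln D g = D → Good g → Sm D g c → Sm D g (nx D B (Good c) c) := by
  obtain ⟨a1, a2, a3, a4, a5, a6, a7⟩ := h1 D B c hB hc
  rcases hC with ⟨hG, hl⟩ | ⟨hG, hm⟩
  · obtain ⟨b1, b2, b3, b4⟩ := a5 (Good c) hG hl
    obtain ⟨-, -, d3, -⟩ := h1 D B _ hB b1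
    have e1 : ∀ e < ln D c, nx D B (Good c) c e = c e := by
      intro e he
      have e2 := congrFun b3 e
      rwa [pre_apply he] at e2
    refine ⟨b1, ?_, ?_, ⟨ln D c, fun e he => (e1 e he).symm, ?_⟩, ?_⟩
    · rw [b2]; omega
    · rw [b2, Nat.add_sub_cancel, b3]
      exact hG
    · rw [b4, a3 _ le_rfl]
      exact Nat.one_pos
    · intro g hgs hgD hgG hS
      obtain ⟨-, g2, g3, -⟩ := h1 D B g hB hgs
      rcases hS with hS | ⟨m, hm1, hm2, hm3⟩
      · have e2 : ∀ e < ln D c, c e = g e := by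
          intro e he
          have e3 := congrFun hS e
          rwa [pre_apply he] at e3
        have e4 : 1 ≤ g (ln D c) := (g2 _ (by rw [hgD]; exact hl)).1
        rcases Nat.lt_or_ge 1 (g (ln D c)) with e5 | e5
        · right
          refine ⟨ln D c, by rw [b2]; omega, fun e he => (e1 e he).trans (e2 e he), ?_⟩
          rw [b4]
          exact e5
        · left
          funext e
          rw [b2]
          rcases Nat.lt_trichotomy e (ln D c) with e6 | e6 | e6
          · rw [pre_apply (by omega), e1 e e6, e2 e e6]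
          · rw [pre_apply (by omega), e6, b4]
            omega
          · rw [d3 e (by rw [b2]; omega)]
            unfold pre
            rw [if_neg (by omega)]
      · right
        exact ⟨m, by rw [b2]; omega, fun e he => (e1 e (he.trans hm1)).trans (hm2 e he),
          by rw [e1 m hm1]; exact hm3⟩
  · obtain ⟨m, b0, b1, b2, b3, b4, b5, b6⟩ := a6 (Good c) hG hm
    obtain ⟨-, -, d3, -⟩ := h1 D B _ hB b3
    have e1 : ∀ e < m, nx D B (Good c) c e = c e := by
      intro e he
      have e2 := congrFun b5 e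
      rwa [pre_apply he, pre_apply he] at e2
    refine ⟨b3, ?_, ?_, ⟨m, fun e he => (e1 e he).symm, ?_⟩, ?_⟩
    · rw [b4]; omega
    · rw [b4, Nat.add_sub_cancel, b5]
      have e2 := hg (by omega)
      have e3 := hcl _ m (a4 (ln D c - 1)).1 e2
      rwa [pre_pre (by omega)] at e3
    · rw [b6]; omega
    · intro g hgs hgD hgG hS
      obtain ⟨-, g2, g3, -⟩ := h1 D B g hB hgs
      rcases hS with hS | ⟨m', hm1, hm2, hm3⟩
      · exfalso
        apply hG
        rw [hS]
        exact hcl _ _ hgs hgG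
      · have e2 : m' < D := lt_of_lt_of_le hm1 a1
        have e3 : g m' ≤ B := (g2 m' (by rw [hgD]; exact e2)).2
        rcases Nat.lt_trichotomy m' m with e4 | e4 | e4
        · right
          exact ⟨m', by rw [b4]; omega, fun e he => (e1 e (he.trans e4)).trans (hm2 e he),
            by rw [e1 m' e4]; exact hm3⟩
        · subst e4
          rcases Nat.lt_or_ge (c m' + 1) (g m') with e5 | e5
          · right
            refine ⟨m', by rw [b4]; omega, fun e he => (e1 e he).trans (hm2 e he), ?_⟩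
            rw [b6]
            exact e5
          · left
            funext e
            rw [b4]
            rcases Nat.lt_trichotomy e m' with e6 | e6 | e6
            · rw [pre_apply (by omega), e1 e e6, hm2 e e6]
            · rw [pre_apply (by omega), e6, b6]
              omega
            · rw [d3 e (by rw [b4]; omega)]
              unfold pre
              rw [if_neg (by omega)]
        · exfalso
          have e5 := b2 m' e4 hm1
          omega

end step

theorem dfs (h1 : StlStmt) : DfsStmt := by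
  classical
  intro Good D B X hB hX h0 hcl hcard
  -- the sequence
  obtain ⟨z, hz0, hz1⟩ : ∃ z : ℕ → ℕ → ℕ, z 0 = (fun _ => 0) ∧
      ∀ j, z (j + 1) = nx D B (Good (z j)) (z j) :=
    ⟨fun j => Nat.rec (fun _ => 0) (fun _ c => nx D B (Good c) c) j, rfl, fun _ => rfl⟩
  have hst0 : IsSt D B (z 0) := by
    rw [hz0]
    exact ⟨0, Nat.zero_le _, fun e he => absurd he (Nat.not_lt_zero _), fun _ _ => rfl⟩
  have hln0 : ln D (z 0) = 0 := by
    by_contra hne
    have h2 := ((h1 D B (z 0) hB hst0).2.1 0 (Nat.pos_of_ne_zero hne)).1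
    rw [hz0] at h2
    exact absurd h2 (by norm_num)
  have hpg0 : Pg Good D (z 0) := by
    intro h2
    rw [hln0] at h2
    exact absurd h2 (by norm_num)
  -- all invariants as long as the search goes on
  have hinv : ∀ j, (∀ i < j, Cont D B (Good (z i)) (z i)) → IsSt D B (z j) ∧ Pg Good D (z j) := by
    intro j
    induction j with
    | zero => intro _; exact ⟨hst0, hpg0⟩
    | succ j ih =>
      intro hj
      obtain ⟨h2, h3⟩ := ih fun i hi => hj i (hi.trans (Nat.lt_succ_self j))
      obtain ⟨h4, h5, h6, -⟩ := step h1 hB hcl h2 h3 (hj j (Nat.lt_succ_self j))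
      rw [hz1]
      exact ⟨h4, fun _ => h6⟩
  have hstep : ∀ j, (∀ i ≤ j, Cont D B (Good (z i)) (z i)) → 1 ≤ ln D (z (j + 1)) ∧
      Good (pre (ln D (z (j + 1)) - 1) (z (j + 1))) ∧ Lx (z j) (z (j + 1)) ∧
      ∀ g, IsSt D B g → ln D g = D → Good g → Sm D g (z j) → Sm D g (z (j + 1)) := by
    intro j hj
    obtain ⟨h2, h3⟩ := hinv j fun i hi => hj i hi.le
    obtain ⟨h4, h5, h6, h7, h8⟩ := step h1 hB hcl h2 h3 (hj j le_rfl)
    rw [hz1]
    exact ⟨h5, h6, h7, h8⟩
  have hlx : ∀ N, (∀ i < N, Cont D B (Good (z i)) (z i)) → ∀ j' ≤ N, ∀ j < j',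
      Lx (z j) (z j') := by
    intro N hN j'
    induction j' with
    | zero => intro _ j hj; exact absurd hj (Nat.not_lt_zero _)
    | succ j' ih =>
      intro hj' j hj
      have h2 := (hstep j' fun i hi => hN i (by omega)).2.2.1
      rcases Nat.lt_succ_iff_lt_or_eq.1 hj with h3 | h3
      · exact (ih (by omega) j h3).trans h2
      · rw [h3]
        exact h2
  -- counting
  have hfin : ∀ l, {c | IsSt D B c ∧ ln D c = l ∧ Good c}.Finite := fun l =>
    (finite_st D B).subset fun c hc => hc.1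
  set F : Finset (ℕ → ℕ) := (Finset.range D).biUnion fun l =>
    ((hfin l).toFinset ×ˢ Finset.Icc 1 B).image (fun p => Function.update p.1 l p.2) with hF
  have hFc : F.card ≤ D * (X * B) := by
    refine Finset.card_biUnion_le.trans ?_
    calc ∑ l ∈ Finset.range D, (((hfin l).toFinset ×ˢ Finset.Icc 1 B).image
          (fun p : (ℕ → ℕ) × ℕ => Function.update p.1 l p.2)).card
        ≤ ∑ _l ∈ Finset.range D, X * B := by
          refine Finset.sum_le_sum fun l hl => ?_
          refine Finset.card_image_le.trans ?_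
          rw [Finset.card_product, Nat.card_Icc, Nat.add_sub_cancel]
          refine Nat.mul_le_mul ?_ le_rfl
          rw [← Set.ncard_eq_toFinset_card _ (hfin l)]
          exact hcard l (Finset.mem_range.1 hl)
      _ = D * (X * B) := by rw [Finset.sum_const, Finset.card_range, smul_eq_mul]
  have hbound : ∀ N, (∀ i < N, Cont D B (Good (z i)) (z i)) → N ≤ D * (X * B) := by
    intro N hN
    refine le_trans ?_ hFc
    have h2 : ((Finset.range N).image fun j => z (j + 1)) ⊆ F := by
      intro c hc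
      obtain ⟨j, hj, rfl⟩ := Finset.mem_image.1 hc
      rw [Finset.mem_range] at hj
      obtain ⟨h3, h4, -⟩ := hstep j fun i hi => hN i (by omega)
      obtain ⟨h5, -⟩ := hinv (j + 1) fun i hi => hN i (by omega)
      obtain ⟨a1, a2, a3, a4, -⟩ := h1 D B _ hB h5
      have h6 : ln D (z (j + 1)) - 1 < D := by omega
      rw [hF, Finset.mem_biUnion]
      refine ⟨ln D (z (j + 1)) - 1, Finset.mem_range.2 h6, Finset.mem_image.2
        ⟨(pre (ln D (z (j + 1)) - 1) (z (j + 1)), z (j + 1) (ln D (z (j + 1)) - 1)), ?_, ?_⟩⟩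
      · rw [Finset.mem_product, Set.Finite.mem_toFinset, Finset.mem_Icc]
        refine ⟨⟨(a4 _).1, ?_, h4⟩, a2 _ (by omega)⟩
        rw [(a4 _).2]
        exact min_eq_left (by omega)
      · funext e
        rcases Nat.lt_trichotomy e (ln D (z (j + 1)) - 1) with h7 | h7 | h7
        · rw [Function.update_of_ne h7.ne]
          exact pre_apply h7 _
        · rw [h7, Function.update_self]
        · rw [Function.update_of_ne h7.ne', a3 e (by omega)]
          exact if_neg (by omega)
    have h3 := Finset.card_le_card h2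
    rwa [Finset.card_image_of_injOn, Finset.card_range] at h3
    intro i hi j hj hij
    rw [Finset.mem_coe, Finset.mem_range] at hi hj
    rcases Nat.lt_trichotomy i j with h4 | h4 | h4
    · exfalso
      have h5 := hlx N hN (j + 1) (by omega) (i + 1) (by omega)
      have h6 : z (i + 1) = z (j + 1) := hij
      rw [h6] at h5
      exact h5.irrefl
    · exact h4
    · exfalso
      have h5 := hlx N hN (i + 1) (by omega) (j + 1) (by omega)
      have h6 : z (i + 1) = z (j + 1) := hij
      rw [h6] at h5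
      exact h5.irrefl
  have hex : ∃ j, ¬ Cont D B (Good (z j)) (z j) := by
    by_contra hne
    push Not at hne
    have h2 := hbound (D * (X * B) + 1) fun i _ => hne i
    omega
  obtain ⟨T, hT, hTmin⟩ : ∃ T, ¬ Cont D B (Good (z T)) (z T) ∧
      ∀ j < T, Cont D B (Good (z j)) (z j) :=
    ⟨Nat.find hex, Nat.find_spec hex, fun j hj => not_not.1 (Nat.find_min hex hj)⟩
  refine ⟨T, z, hz0, hbound T hTmin, fun j hj => (hinv j fun i hi => hTmin i (by omega)).1,
    fun j hj => ⟨hTmin j hj, hz1 j⟩, hT, ?_⟩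
  have hTst : IsSt D B (z T) := (hinv T hTmin).1
  obtain ⟨a1, a2, a3, a4, a5, a6, a7⟩ := h1 D B _ hB hTst
  constructor
  · intro hG
    refine ⟨z T, hTst, ?_, hG⟩
    by_contra hne
    exact hT (Or.inl ⟨hG, lt_of_le_of_ne a1 hne⟩)
  · rintro ⟨g, hg1, hg2, hg3⟩
    have hS : ∀ j ≤ T, Sm D g (z j) := by
      intro j
      induction j with
      | zero =>
        intro _
        left
        rw [hln0, hz0]
        rfl
      | succ j ih =>
        intro hj
        exact (hstep j fun i hi => hTmin i (by omega)).2.2.2 g hg1 hg2 hg3 (ih (by omega))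
    by_contra hG
    rcases hS T le_rfl with h2 | ⟨m, hm1, hm2, hm3⟩
    · apply hG
      rw [h2]
      exact hcl _ _ hg1 hg3
    · obtain ⟨-, g2, -⟩ := h1 D B g hB hg1
      have h3 : g m ≤ B := (g2 m (by omega)).2
      exact hT (Or.inr ⟨hG, a7 m hm1 (by omega)⟩)

end Pool.Agent.C4U.H2
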